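import Pool.Agent.X248.SC.Alg

/-!
# Split clique graphs with a bounded stable side are recognised in polynomial time

Adding a true twin of a vertex `x` to a clique graph `K(H)` gives a clique graph (add two new
vertices to `H`, both adjacent exactly to the vertices of the clique `x`). A split graph with `j`
stable vertices is described by the number of clique vertices of each of the `2^j` types. Hence,
among the graphs in which the same types occur, the clique graphs form an upward closed set, which
by Dickson's lemma is described by finitely many minimal elements. For fixed `k` this gives a finite
table, and the algorithm tries all candidates for the stable side.
-/

set_option autoImplicit false

namespace Pool.Agent.Results.MP_4c1bf1_lc.SplitCliqueGraphsInP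

open Pool.Agent.NPC Pool.Agent.X248.SC

/-- **For every fixed `k`, the problem `REC_S(k)` is decided in polynomial time**: given a graph
(as a Boolean adjacency matrix), decide whether it is a split graph whose normalised partition has
at most `k` vertices in the stable side and which is a clique graph. -/
theorem result (k : ℕ) : InPP (REC k) := inPP_REC k

end Pool.Agent.Results.MP_4c1bf1_lc.SplitCliqueGraphsInP
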